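import Mathlib
import Pool.Agent.Lib_MP_1d3aa8_lc.Proof

/-!
# Distributivity of the totalizing jump over the meet

For Weihrauch-incomparable problems `f`, `g`, the totalizing jump of the meet is strictly below the
meet of the totalizing jumps.  (The totalizing jump exists for every problem: this is
`Pool.Agent.Lib_MP_1d3aa8_lc.exists_isTotJump`.)
-/

set_option autoImplicit false

namespace Pool.Agent.Results.MP_1d3aa8_lc.TotJumpMeet

open Pool.Agent.Lib_MP_1d3aa8_lc

/-- If `f` and `g` are Weihrauch-incomparable, then `tJ(f ⊓ g) < tJ(f) ⊓ tJ(g)`. -/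
theorem result (f g : Problem) (hfg : ¬ WLE f g) (hgf : ¬ WLE g f)
    (tf tg tm : Problem) (hf : IsTotJump f tf) (hg : IsTotJump g tg)
    (hm : IsTotJump (meet f g) tm) :
    WLE tm (meet tf tg) ∧ ¬ WLE (meet tf tg) tm :=
  tJ_meet_strict f g hfg hgf tf tg tm hf hg hm

end Pool.Agent.Results.MP_1d3aa8_lc.TotJumpMeet
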